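import Pool.Agent.Y342.ION.Final

/-!
# The symmetric designs of Ionin and Kharaghani for all prime powers `p = 1` modulo `2 ^ t`

There is a constant `C` such that for all natural numbers `n`, `p`, `t`, `m`, `h` with `p = 2 h + 1`
a prime power, `p ≤ 2 ↑↑ n` (the power tower of `n` twos, `1` for `n = 0`), `t ≥ C ^ (n + 1)` and
`2 ^ t ∣ p - 1`, there is a symmetric design with parameters
`(4 h² (1 + p² + p⁴ + ⋯ + p ^ (2 m)), p ^ (2 m) (2 h² + h), p ^ (2 m) (h² + h))`.
-/

namespace Pool.Agent.Results.MP_3038d1_co.IoninFamilies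

/-- `B` lists the `v` blocks of a symmetric `(v, k, l)`-design on the point set `Fin v`:
`k < v`, `0 < l`, every block has `k` points, every point is in `k` blocks, any two distinct points
are in exactly `l` common blocks (and any two distinct blocks have exactly `l` common points). -/
def IsSymmetricDesign (v k l : ℕ) (B : Fin v → Finset (Fin v)) : Prop :=
  k < v ∧ 0 < l ∧ (∀ i, (B i).card = k) ∧
  (∀ x, (Finset.univ.filter (fun i => x ∈ B i)).card = k) ∧
  (∀ x y, x ≠ y → (Finset.univ.filter (fun i => x ∈ B i ∧ y ∈ B i)).card = l) ∧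
  (∀ i j, i ≠ j → (B i ∩ B j).card = l)

theorem result : ∃ C : ℕ, ∀ n p t m h : ℕ, IsPrimePow p → p = 2 * h + 1 →
    p ≤ (fun x : ℕ => 2 ^ x)^[n] 1 → C ^ (n + 1) ≤ t → 2 ^ t ∣ p - 1 →
    ∃ B, IsSymmetricDesign (4 * h ^ 2 * ∑ i ∈ Finset.range (m + 1), p ^ (2 * i))
      (p ^ (2 * m) * (2 * h ^ 2 + h)) (p ^ (2 * m) * (h ^ 2 + h)) B := by
  obtain ⟨C, -, hC⟩ := Pool.Agent.W851.Had.main_had
  refine ⟨C, fun n p t m h hp hph hn ht hd => ?_⟩
  subst hph
  rw [Nat.add_sub_cancel] at hd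
  obtain ⟨q, hq⟩ := hd
  have hq' : q ≤ 2 * h := by
    rw [hq]
    exact Nat.le_mul_of_pos_left q (by positivity)
  have h1 : Pool.Agent.H114R2.HasHad (2 ^ t * q) := hC n q t (by
    have h2 : 2 * h + 1 ≤ Pool.Agent.W851.Had.tow n := hn
    omega) ht
  rw [← hq] at h1
  exact Pool.Agent.Y342.ION.ionin hp h1 m

end Pool.Agent.Results.MP_3038d1_co.IoninFamilies
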