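import Pool.Agent.H114R2.Design
import Pool.Agent.Y341.Had.Orders

/-!
# New infinite families of symmetric designs with Hadamard and with Menon parameters

Let `m` be one of eighteen numbers (`167, 179, ..., 515, 537, 839, 883, 919, 933`) for which no
Hadamard matrix of order `4 m` was known. For every `n` such that there is a Hadamard matrix of
order `2 n`, and in particular for `n = 1`, for `n = (p + 1) / 2` with `p = 3` modulo `4` a prime and
for `n = q + 1` with `q = 1` modulo `4` a prime power, there are a symmetric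
`(4 m n - 1, 2 m n - 1, m n - 1)`-design and a symmetric design with Menon parameters
`(4 u², 2 u² - u, u² - u)`, `u = 2 m n`.

New seeds, found for this purpose:
* `2060 = 4 (512 + 3)`, the smallest order for which no Hadamard matrix was known after the starting
  files: a Goethals-Seidel array over `Z_16 x Z_16 x Z_2` with a border of width twelve, from sign
  functions invariant under a cyclic group of twelve automorphisms;
* `2148 = 4 (534 + 3)`: a Goethals-Seidel array over `Z_2 x Z_3 x Z_89` with a new border of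
  width twelve, constant on the cosets of the kernel of the map onto `Z_3`;
* `3356 = 4 (832 + 7)`: a Goethals-Seidel array over `Z_4 x Z_4 x Z_4 x Z_13` with a border of
  width twenty-eight;
* `3532 = 4 * 883` and `3732 = 4 * 933`: Goethals-Seidel arrays over `Z_883` and `Z_3 x Z_311`.
-/

set_option autoImplicit false

namespace Pool.Agent.Results.MP_3038d1_co.MoreHadamardDesigns

/-- `B` lists the `v` blocks of a symmetric `(v, k, l)`-design on the point set `Fin v`:
`k < v`, `0 < l`, every block has `k` points, every point is in `k` blocks, any two distinct points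
are in exactly `l` common blocks (and any two distinct blocks have exactly `l` common points). -/
def IsSymmetricDesign (v k l : ℕ) (B : Fin v → Finset (Fin v)) : Prop :=
  k < v ∧ 0 < l ∧ (∀ i, (B i).card = k) ∧
  (∀ x, (Finset.univ.filter (fun i => x ∈ B i)).card = k) ∧
  (∀ x y, x ≠ y → (Finset.univ.filter (fun i => x ∈ B i ∧ y ∈ B i)).card = l) ∧
  (∀ i j, i ≠ j → (B i ∩ B j).card = l)

/-- `m` is one of eighteen seeds; `n` is `1`, or `(p + 1) / 2` for a prime `p = 3` modulo `4`, or
`q + 1` for a prime power `q = 1` modulo `4`, or half the order of any Hadamard matrix -/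
theorem result : ∀ m ∈ ([167, 179, 223, 283, 311, 347, 359, 419, 443, 479, 487, 491, 515, 537,
    839, 883, 919, 933] : List ℕ), ∀ n : ℕ, 0 < n →
    (n = 1 ∨ (∃ p : ℕ, p.Prime ∧ p % 4 = 3 ∧ 2 * n = p + 1) ∨
      (∃ q : ℕ, IsPrimePow q ∧ q % 4 = 1 ∧ n = q + 1) ∨
      ∃ H : Matrix (Fin (2 * n)) (Fin (2 * n)) ℤ, (∀ i j, H i j = 1 ∨ H i j = -1) ∧
        H * H.transpose = ((2 * n : ℕ) : ℤ) • 1) →
    (∃ B, IsSymmetricDesign (4 * (m * n) - 1) (2 * (m * n) - 1) (m * n - 1) B) ∧
    ∃ B, IsSymmetricDesign (4 * (2 * (m * n)) ^ 2) (2 * (2 * (m * n)) ^ 2 - 2 * (m * n))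
      ((2 * (m * n)) ^ 2 - 2 * (m * n)) B := by
  have key : ∀ m : ℕ, 1 < m → Pool.Agent.TH394.HadOrder (4 * m) →
      (∃ B, IsSymmetricDesign (4 * m - 1) (2 * m - 1) (m - 1) B) ∧
      ∃ B, IsSymmetricDesign (4 * (2 * m) ^ 2) (2 * (2 * m) ^ 2 - 2 * m)
        ((2 * m) ^ 2 - 2 * m) B := by
    intro m hm h
    refine ⟨Pool.Agent.H114R2.hadDesign_of_had hm h, Pool.Agent.H114R2.menon_of_had (by omega) ?_⟩
    have e : 2 * (2 * m) = 4 * m := by ring
    rw [e]
    exact h
  intro m hm n hn0 hn
  have hm1 : 1 < m := by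
    simp only [List.mem_cons, List.not_mem_nil, or_false] at hm
    omega
  have h1 : 1 < m * n := by
    calc 1 < m := hm1
      _ ≤ m * n := Nat.le_mul_of_pos_right m hn0
  exact key (m * n) h1 (Pool.Agent.Y341.Had.mult (Pool.Agent.Y341.Had.base m hm) hn)

end Pool.Agent.Results.MP_3038d1_co.MoreHadamardDesigns
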