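import Pool.Agent.H114R2.Design
import Pool.Agent.Y342.SK.Sym

/-!
# Symmetric `(2 w + 1, w, (w - 1) / 2)`-designs for `w = v ^ 2 ^ j`, `v = -1` modulo `2 ^ t`

There is a constant `C` such that for all natural numbers `n`, `v`, `t`, `j` with `v ≤ 2 ↑↑ n` (the
power tower of `n` twos, `1` for `n = 0`), `t ≥ 2 ^ C ^ (n + 1)`, `2 ^ t ∣ v + 1` and `j ≥ 1`, with
`w = v ^ 2 ^ j`, there is a symmetric `(2 w + 1, w, (w - 1) / 2)`-design.
-/

namespace Pool.Agent.Results.MP_3038d1_co.PowerBlockSize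

/-- `B` lists the `v` blocks of a symmetric `(v, k, l)`-design on the point set `Fin v`:
`k < v`, `0 < l`, every block has `k` points, every point is in `k` blocks, any two distinct points
are in exactly `l` common blocks (and any two distinct blocks have exactly `l` common points). -/
def IsSymmetricDesign (v k l : ℕ) (B : Fin v → Finset (Fin v)) : Prop :=
  k < v ∧ 0 < l ∧ (∀ i, (B i).card = k) ∧
  (∀ x, (Finset.univ.filter (fun i => x ∈ B i)).card = k) ∧
  (∀ x y, x ≠ y → (Finset.univ.filter (fun i => x ∈ B i ∧ y ∈ B i)).card = l) ∧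
  (∀ i j, i ≠ j → (B i ∩ B j).card = l)

theorem result : ∃ C : ℕ, ∀ n v t j w : ℕ, v ≤ (fun x : ℕ => 2 ^ x)^[n] 1 →
    2 ^ C ^ (n + 1) ≤ t → 2 ^ t ∣ v + 1 → 1 ≤ j → w = v ^ 2 ^ j →
    ∃ B, IsSymmetricDesign (2 * w + 1) w ((w - 1) / 2) B := by
  obtain ⟨C, hC, h⟩ := Pool.Agent.Y342.SK.main_two
  refine ⟨C, fun n v t j w hv ht hd hj hw => ?_⟩
  obtain ⟨i, rfl⟩ : ∃ i, j = i + 1 := ⟨j - 1, by omega⟩
  have h1 := h n v t i hv ht hd
  rw [← hw] at h1
  have h2 : Pool.Agent.H114R2.HasHad (2 * (w + 1)) := h1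
  have ht1 : 2 ≤ t := by
    refine le_trans ?_ ht
    calc 2 = 2 ^ 1 := by norm_num
      _ ≤ 2 ^ C ^ (n + 1) := Nat.pow_le_pow_right (by norm_num) (Nat.one_le_pow _ _ (by omega))
  have h4 : 4 ∣ v + 1 := by
    refine dvd_trans ?_ hd
    exact pow_dvd_pow 2 ht1
  have hv3 : 3 ≤ v := by
    have := Nat.le_of_dvd (by omega) h4
    omega
  have hodd : w % 2 = 1 := by
    rw [hw, Nat.pow_mod]
    have : v % 2 = 1 := by omega
    rw [this, one_pow]
    rfl
  have hw3 : 3 ≤ w := by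
    rw [hw]
    exact hv3.trans (Nat.le_self_pow (by positivity) v)
  obtain ⟨m, hm⟩ : ∃ m, w + 1 = 2 * m := ⟨(w + 1) / 2, by omega⟩
  have h5 : 2 * (w + 1) = 4 * m := by omega
  rw [h5] at h2
  have h6 := Pool.Agent.H114R2.hadDesign_of_had (by omega : 1 < m) h2
  have e1 : 4 * m - 1 = 2 * w + 1 := by omega
  have e2 : 2 * m - 1 = w := by omega
  have e3 : m - 1 = (w - 1) / 2 := by omega
  rw [e1, e2, e3] at h6
  exact h6

end Pool.Agent.Results.MP_3038d1_co.PowerBlockSize
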