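import Pool.Agent.Y341.Had.Orders
import Pool.Agent.Y342.ION.Final

/-!
# New infinite families of symmetric designs from Hadamard matrices of order `q - 1`

Let `q` be a prime power, `q = 1` modulo `4`, such that there is a Hadamard matrix of order `q - 1`.
Then for all `a` and `j`, with `q ^ 2 ^ a = 2 h + 1`, there is a symmetric design with the parameters
`(4 h² (1 + P² + P⁴ + ⋯ + P ^ (2 j)), P ^ (2 j) (2 h² + h), P ^ (2 j) (h² + h))`, `P = 2 h + 1`.

In particular this holds for `q = 1949, 3533, 3677, 3733`. The construction of Ionin and Kharaghani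
needs a Hadamard matrix of order `P - 1`. It is Agayan's product of one of order `q ^ 2 ^ (a - 1) - 1`
and Paley's one of order `2 (q ^ 2 ^ (a - 1) + 1)`; the orders `1948` and `3676` are those of the
starting files of the Hadamard conjecture; the matrices of orders `3532 = 4 * 883` and
`3732 = 4 * 933` are new: Goethals-Seidel arrays over `Z_883` and `Z_3 x Z_311`, found by a search
for four sign functions which are invariant under a group of multipliers and have total periodic
autocorrelation zero.
-/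

set_option autoImplicit false

namespace Pool.Agent.Results.MP_3038d1_co.PrimeFamiliesNewOrders

/-- `B` lists the `v` blocks of a symmetric `(v, k, l)`-design on the point set `Fin v`:
`k < v`, `0 < l`, every block has `k` points, every point is in `k` blocks, any two distinct points
are in exactly `l` common blocks (and any two distinct blocks have exactly `l` common points). -/
def IsSymmetricDesign (v k l : ℕ) (B : Fin v → Finset (Fin v)) : Prop :=
  k < v ∧ 0 < l ∧ (∀ i, (B i).card = k) ∧
  (∀ x, (Finset.univ.filter (fun i => x ∈ B i)).card = k) ∧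
  (∀ x y, x ≠ y → (Finset.univ.filter (fun i => x ∈ B i ∧ y ∈ B i)).card = l) ∧
  (∀ i j, i ≠ j → (B i ∩ B j).card = l)

/-- the first part is unconditional; the second part is the underlying theorem, for every prime
power `q = 1` modulo `4` such that there is a Hadamard matrix of order `q - 1` -/
theorem result :
    (∀ q ∈ ([1949, 3533, 3677, 3733] : List ℕ), q.Prime ∧
      ∀ a j h : ℕ, q ^ 2 ^ a = 2 * h + 1 →
        ∃ B, IsSymmetricDesign (4 * h ^ 2 * ∑ i ∈ Finset.range (j + 1), (2 * h + 1) ^ (2 * i))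
          ((2 * h + 1) ^ (2 * j) * (2 * h ^ 2 + h)) ((2 * h + 1) ^ (2 * j) * (h ^ 2 + h)) B) ∧
    ∀ q : ℕ, IsPrimePow q → q % 4 = 1 →
      (∃ H : Matrix (Fin (q - 1)) (Fin (q - 1)) ℤ, (∀ i j, H i j = 1 ∨ H i j = -1) ∧
        H * H.transpose = ((q - 1 : ℕ) : ℤ) • 1) →
      ∀ a j h : ℕ, q ^ 2 ^ a = 2 * h + 1 →
        ∃ B, IsSymmetricDesign (4 * h ^ 2 * ∑ i ∈ Finset.range (j + 1), (2 * h + 1) ^ (2 * i))
          ((2 * h + 1) ^ (2 * j) * (2 * h ^ 2 + h)) ((2 * h + 1) ^ (2 * j) * (h ^ 2 + h)) B := by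
  have main : ∀ q : ℕ, IsPrimePow q → q % 4 = 1 → Pool.Agent.TH394.HadOrder (q - 1) →
      ∀ a j h : ℕ, q ^ 2 ^ a = 2 * h + 1 →
        ∃ B, IsSymmetricDesign (4 * h ^ 2 * ∑ i ∈ Finset.range (j + 1), (2 * h + 1) ^ (2 * i))
          ((2 * h + 1) ^ (2 * j) * (2 * h ^ 2 + h)) ((2 * h + 1) ^ (2 * j) * (h ^ 2 + h)) B := by
    intro q hq h4 hH a j h hh
    have h1 := (Pool.Agent.Y341.Had.tower_pow hq h4 a).1
    have h2 := Pool.Agent.Y341.Had.tower hq h4 hH a
    rw [hh] at h1 h2
    exact Pool.Agent.Y342.ION.ionin h1 h2 j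
  refine ⟨?_, main⟩
  intro q hq
  simp only [List.mem_cons, List.not_mem_nil, or_false] at hq
  rcases hq with rfl | rfl | rfl | rfl
  · have hp : Nat.Prime 1949 := by norm_num
    exact ⟨hp, main 1949 hp.isPrimePow (by norm_num) Pool.Agent.TH394.N487.had⟩
  · have hp : Nat.Prime 3533 := by norm_num
    exact ⟨hp, main 3533 hp.isPrimePow (by norm_num) Pool.Agent.Y341.Had.N883.had⟩
  · have hp : Nat.Prime 3677 := by norm_num
    exact ⟨hp, main 3677 hp.isPrimePow (by norm_num) Pool.Agent.TH394.N919.had⟩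
  · have hp : Nat.Prime 3733 := by norm_num
    exact ⟨hp, main 3733 hp.isPrimePow (by norm_num) Pool.Agent.Y341.Had.N933.had⟩

end Pool.Agent.Results.MP_3038d1_co.PrimeFamiliesNewOrders
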